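import Pool.Agent.Lib.MP_144d21_co.XU.Iface

/-! XU, module STEPB. -/

set_option autoImplicit false

namespace Pool.Agent.Xu.H88

open Finset Polynomial

theorem mul_log_div (a T : ℝ) (hT : T ≠ 0) :
    T * Real.negMulLog (a / T) = a * Real.log T - a * Real.log a := by
  by_cases ha : a = 0
  · subst ha; simp
  · unfold Real.negMulLog
    rw [Real.log_div ha hT]
    field_simp
    ring

theorem key3 (h : Real3S) (a b c : ℝ) (ha : 0 ≤ a) (hb : 0 ≤ b) (hc : 0 ≤ c) :
    (a + b) * Real.log (a + b) + (b + c) * Real.log (b + c) + (c + a) * Real.log (c + a)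
      - 2 * (a * Real.log a + b * Real.log b + c * Real.log c) ≤
    13 / 10 * ((a + b + c) * Real.log (a + b + c) -
      (a * Real.log a + b * Real.log b + c * Real.log c)) := by
  by_cases hT : a + b + c = 0
  · have h1 : a = 0 := by linarith
    have h2 : b = 0 := by linarith
    have h3 : c = 0 := by linarith
    subst h1; subst h2; subst h3; simp
  · have hTp : 0 < a + b + c := lt_of_le_of_ne (by positivity) (Ne.symm hT)
    set T := a + b + c with hTd
    have H := h (a / T) (b / T) (c / T) (by positivity) (by positivity) (by positivity)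
      (by rw [← add_div, ← add_div, ← hTd, div_self hT])
    rw [← add_div, ← add_div, ← add_div] at H
    have H2 := mul_le_mul_of_nonneg_left H hTp.le
    have e : T * (7 / 10 * (Real.negMulLog (a / T) + Real.negMulLog (b / T) +
        Real.negMulLog (c / T))) = 7 / 10 * (T * Real.negMulLog (a / T) +
        T * Real.negMulLog (b / T) + T * Real.negMulLog (c / T)) := by ring
    have e' : T * (Real.negMulLog ((a + b) / T) + Real.negMulLog ((b + c) / T) +
        Real.negMulLog ((c + a) / T)) = T * Real.negMulLog ((a + b) / T) +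
        T * Real.negMulLog ((b + c) / T) + T * Real.negMulLog ((c + a) / T) := by ring
    rw [e, e', mul_log_div a T hT, mul_log_div b T hT, mul_log_div c T hT,
      mul_log_div (a + b) T hT, mul_log_div (b + c) T hT, mul_log_div (c + a) T hT] at H2
    have e2 : T * Real.log T = a * Real.log T + b * Real.log T + c * Real.log T := by
      rw [hTd]; ring
    rw [e2]
    nlinarith [H2]

theorem stepb (h : Real3S) : StepbS := by
  intro N k0 hk0 hN
  have n0 : (0:ℝ) ≤ N 0 := Nat.cast_nonneg _
  have n1 : (0:ℝ) ≤ N 1 := Nat.cast_nonneg _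
  have n2 : (0:ℝ) ≤ N 2 := Nat.cast_nonneg _
  have n3 : (0:ℝ) ≤ N 3 := Nat.cast_nonneg _
  have hk : k0 = 0 ∨ k0 = 1 ∨ k0 = 2 ∨ k0 = 3 := by omega
  simp only [prs, Finset.sum_range_succ, Finset.sum_range_zero]
  rw [Finset.sum_insert (by decide), Finset.sum_insert (by decide), Finset.sum_insert (by decide),
    Finset.sum_insert (by decide), Finset.sum_insert (by decide), Finset.sum_singleton]
  rw [Finset.sum_insert (by decide), Finset.sum_insert (by decide), Finset.sum_insert (by decide),
    Finset.sum_insert (by decide), Finset.sum_insert (by decide), Finset.sum_singleton]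
  rw [Finset.sum_insert (by decide), Finset.sum_insert (by decide), Finset.sum_insert (by decide),
    Finset.sum_insert (by decide), Finset.sum_insert (by decide), Finset.sum_singleton]
  rw [Finset.sum_insert (by decide), Finset.sum_insert (by decide), Finset.sum_insert (by decide),
    Finset.sum_insert (by decide), Finset.sum_insert (by decide), Finset.sum_singleton]
  simp only [Nat.cast_add]
  norm_num
  rcases hk with hk | hk | hk | hk
  · subst hk
    have K := key3 h (N 1) (N 2) (N 3) n1 n2 n3
    rw [hN]
    simp only [Nat.cast_zero, zero_add, zero_mul]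
    rw [add_comm (N 3 : ℝ) (N 1 : ℝ)] at K
    linarith [K]
  · subst hk
    have K := key3 h (N 0) (N 2) (N 3) n0 n2 n3
    rw [hN]
    simp only [Nat.cast_zero, zero_add, zero_mul, add_zero]
    rw [add_comm (N 3 : ℝ) (N 0 : ℝ)] at K
    linarith [K]
  · subst hk
    have K := key3 h (N 0) (N 1) (N 3) n0 n1 n3
    rw [hN]
    simp only [Nat.cast_zero, zero_add, zero_mul, add_zero]
    rw [add_comm (N 3 : ℝ) (N 0 : ℝ)] at K
    linarith [K]
  · subst hk
    have K := key3 h (N 0) (N 1) (N 2) n0 n1 n2
    rw [hN]
    simp only [Nat.cast_zero, zero_mul, add_zero]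
    rw [add_comm (N 2 : ℝ) (N 0 : ℝ)] at K
    linarith [K]

end Pool.Agent.Xu.H88
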